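import Pool.Agent.Helper86.AP.Goals

/-! # Packet AP-ADMW (MP_bec853_al): the admissible quadruples have finite weight -/

set_option autoImplicit false

namespace Pool.Agent.Helper95.AP

open FreeGroup Pool.Agent.Helper35.PP Pool.Agent.Helper35.PX Pool.Agent.Helper86.AP
open scoped ENNReal

/-- sum of a product. -/
theorem tp {X Y : Type} (f : X → ℝ≥0∞) (g : Y → ℝ≥0∞) :
    ∑' x : X × Y, f x.1 * g x.2 = (∑' a, f a) * ∑' b, g b := by
  rw [ENNReal.tsum_prod (f := fun a b => f a * g b)]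
  simp only [ENNReal.tsum_mul_left, ENNReal.tsum_mul_right]

/-- `(n + 1) z ^ n` is at most a multiple of `z' ^ n`. -/
theorem lin_le {z z' : ℝ} (hz : 0 < z) (hz' : z < z') :
    ∃ K : ℝ, 0 ≤ K ∧ ∀ n : ℕ, ((n : ℝ) + 1) * z ^ n ≤ K * z' ^ n := by
  have hz0' : 0 < z' := hz.trans hz'
  have hr0 : 0 ≤ z / z' := (div_pos hz hz0').le
  have hr1 : z / z' < 1 := (div_lt_one hz0').2 hz'
  set r := z / z' with hr
  have hs : Summable fun n : ℕ => ((n : ℝ) + 1) * r ^ n := by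
    have h1 : Summable fun n : ℕ => ((n : ℝ) ^ 1) * r ^ n :=
      summable_pow_mul_geometric_of_norm_lt_one 1 (by
        rw [Real.norm_eq_abs, abs_of_nonneg hr0]; exact hr1)
    have h2 : Summable fun n : ℕ => r ^ n := summable_geometric_of_lt_one hr0 hr1
    refine (h1.add h2).congr fun n => ?_
    ring
  have hnn : ∀ n : ℕ, 0 ≤ ((n : ℝ) + 1) * r ^ n := fun n => by positivity
  refine ⟨∑' n : ℕ, ((n : ℝ) + 1) * r ^ n, tsum_nonneg hnn, fun n => ?_⟩
  have h3 : ((n : ℝ) + 1) * r ^ n ≤ ∑' n : ℕ, ((n : ℝ) + 1) * r ^ n :=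
    hs.le_tsum n (fun m _ => hnn m)
  have h4 : z ^ n = r ^ n * z' ^ n := by
    rw [hr, ← mul_pow, div_mul_cancel₀ _ hz0'.ne']
  rw [h4, ← mul_assoc]
  exact mul_le_mul_of_nonneg_right h3 (by positivity)

/-- the sum with a choice of a start. -/
theorem sigma_lt_top {β : Type} (S : Set (List β)) {z z' : ℝ} (hz : 0 < z) (hz' : z < z')
    (h : W (ENNReal.ofReal z') S < ⊤) :
    ∑' x : (Σ u : S, Fin ((u : List β).length + 1)),
      ENNReal.ofReal z ^ (x.1 : List β).length < ⊤ := by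
  obtain ⟨K, hK, hn⟩ := lin_le hz hz'
  have h1 : ∑' x : (Σ u : S, Fin ((u : List β).length + 1)),
      ENNReal.ofReal z ^ (x.1 : List β).length
      = ∑' u : S, ∑' _ : Fin ((u : List β).length + 1), ENNReal.ofReal z ^ (u : List β).length :=
    ENNReal.tsum_sigma (fun (u : S) (_ : Fin ((u : List β).length + 1)) =>
      ENNReal.ofReal z ^ (u : List β).length)
  rw [h1]
  refine lt_of_le_of_lt (b := ENNReal.ofReal K * W (ENNReal.ofReal z') S) ?_
    (ENNReal.mul_lt_top ENNReal.ofReal_lt_top h)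
  unfold W
  rw [← ENNReal.tsum_mul_left]
  refine ENNReal.tsum_le_tsum fun u => ?_
  have h2 : ∑' _ : Fin ((u : List β).length + 1), ENNReal.ofReal z ^ (u : List β).length
      = ENNReal.ofReal ((((u : List β).length : ℝ) + 1) * z ^ (u : List β).length) := by
    rw [tsum_fintype, Finset.sum_const, Finset.card_univ, Fintype.card_fin, nsmul_eq_mul,
      ENNReal.ofReal_mul (by positivity), ENNReal.ofReal_pow hz.le,
      ENNReal.ofReal_add (by positivity) (by norm_num), ENNReal.ofReal_natCast,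
      ENNReal.ofReal_one]
    push_cast
    rfl
  rw [h2, ← ENNReal.ofReal_pow (hz.trans hz').le, ← ENNReal.ofReal_mul hK]
  exact ENNReal.ofReal_le_ofReal (hn _)

/-- a factor, given by its start and its length. -/
def ix {β : Type} (u : List β) (k n : ℕ) : List β := (u.drop k).take n

theorem exists_ix {β : Type} {f u : List β} (h : f <:+: u) :
    ∃ k : Fin (u.length + 1), ix u k f.length = f := by
  obtain ⟨s, t, rfl⟩ := h
  refine ⟨⟨s.length, by simp only [List.length_append]; omega⟩, ?_⟩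
  simp [ix, List.append_assoc]

section

variable {α : Type} [Fintype α] [DecidableEq α]

/-- the index type: `p, q, t, t'` with starts, `c`, and four lengths. -/
abbrev IT (i : α) (M : Set (List (α × Bool))) : Type :=
  (Σ u : Zr (Zi i), Fin ((u : List (α × Bool)).length + 1)) ×
  (Σ u : Zr (Zi i), Fin ((u : List (α × Bool)).length + 1)) ×
  (Σ u : Pool.Agent.Helper86.AP.LE M, Fin ((u : List (α × Bool)).length + 1)) ×
  (Σ u : Pool.Agent.Helper86.AP.LE M, Fin ((u : List (α × Bool)).length + 1)) ×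
  Zr (Zi i) × ℕ × ℕ × ℕ × ℕ

/-- the quadruple of an index. -/
def qd {i : α} {M : Set (List (α × Bool))} (x : IT i M) :
    List (α × Bool) × List (α × Bool) × List (α × Bool) × List (α × Bool) :=
  let p : List (α × Bool) := x.1.1
  let q : List (α × Bool) := x.2.1.1
  let t : List (α × Bool) := x.2.2.1.1
  let t' : List (α × Bool) := x.2.2.2.1.1
  let c : List (α × Bool) := x.2.2.2.2.1
  let n1 := x.2.2.2.2.2.1
  let n2 := x.2.2.2.2.2.2.1
  let n3 := x.2.2.2.2.2.2.2.1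
  let n4 := x.2.2.2.2.2.2.2.2
  (p ++ (ix q x.2.1.2 n2 ++ c ++ ix t' x.2.2.2.1.2 n1) ++ t, p,
    q ++ (ix p x.1.2 n4 ++ c ++ ix t x.2.2.1.2 n3) ++ t', q)

/-- the weight of an index. -/
noncomputable def wi (z : ℝ≥0∞) {i : α} {M : Set (List (α × Bool))} (x : IT i M) : ℝ≥0∞ :=
  (z ^ 2) ^ (x.1.1 : List (α × Bool)).length * ((z ^ 2) ^ (x.2.1.1 : List (α × Bool)).length *
    (z ^ (x.2.2.1.1 : List (α × Bool)).length * (z ^ (x.2.2.2.1.1 : List (α × Bool)).length *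
    ((z ^ 2) ^ (x.2.2.2.2.1 : List (α × Bool)).length * (z ^ x.2.2.2.2.2.1 *
    (z ^ x.2.2.2.2.2.2.1 * (z ^ x.2.2.2.2.2.2.2.1 * z ^ x.2.2.2.2.2.2.2.2)))))))

theorem Zr_factor {Λ : Finset (α × Bool)} {u v : List (α × Bool)} (h : u ∈ Zr Λ) (hv : v <:+: u) :
    v ∈ Zr Λ :=
  ⟨fun x hx => h.1 x (hv.subset hx), by
    obtain ⟨a, b, rfl⟩ := hv
    exact (List.IsChain.left_of_append h.2).right_of_append⟩

theorem key (z : ℝ≥0∞) (i : α) (M : Set (List (α × Bool))) (s : ADMS i M) :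
    ∃ x : IT i M, qd x = s.1 ∧
      z ^ (s.1.1.length + s.1.2.1.length + s.1.2.2.1.length + s.1.2.2.2.length) = wi z x := by
  obtain ⟨⟨A, p, D, q⟩, hA, hD, hadm⟩ := s
  obtain ⟨f1, f2, f3, f4, c, t, t', hA', hD', ht, ht', h1, h2, h3, h4⟩ := hadm
  simp only at hA hD hA' hD'
  obtain ⟨k1, hk1⟩ := exists_ix h1
  obtain ⟨k2, hk2⟩ := exists_ix h2
  obtain ⟨k3, hk3⟩ := exists_ix h3
  obtain ⟨k4, hk4⟩ := exists_ix h4
  have hp : p ∈ Zr (Zi i) := Zr_factor hA ⟨[], (f2 ++ c ++ f1) ++ t, by rw [hA']; simp⟩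
  have hq : q ∈ Zr (Zi i) := Zr_factor hD ⟨[], (f4 ++ c ++ f3) ++ t', by rw [hD']; simp⟩
  have hc : c ∈ Zr (Zi i) := Zr_factor hA ⟨p ++ f2, f1 ++ t, by rw [hA']; simp⟩
  refine ⟨(⟨⟨p, hp⟩, k4⟩, ⟨⟨q, hq⟩, k2⟩, ⟨⟨t, ht⟩, k3⟩, ⟨⟨t', ht'⟩, k1⟩, ⟨c, hc⟩, f1.length,
    f2.length, f3.length, f4.length), ?_, ?_⟩
  · simp only [qd, hk1, hk2, hk3, hk4]
    rw [← hA', ← hD']
  · simp only [wi, ← pow_mul, ← pow_add]
    congr 1
    rw [hA', hD']
    simp only [List.length_append]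
    ring

theorem W_Zr2 (i : α) {y : ℝ} (hy : 0 < y) (hc : 2 ≤ Fintype.card α)
    (h : (2 * (Fintype.card α : ℝ) - 3) * y < 1) : W (ENNReal.ofReal y) (Zr (Zi i)) < ⊤ := by
  have hpos : 0 < 1 - (2 * (Fintype.card α : ℝ) - 3) * y := by linarith
  apply W_Zr (Zi_nv i) hy.le (Φ := 1 / (1 - (2 * (Fintype.card α : ℝ) - 3) * y)) (by positivity)
  have hcard : ((Zi i).card : ℝ) = 2 * (Fintype.card α : ℝ) - 2 := by
    rw [Zi_card, Nat.cast_sub (by omega)]
    push_cast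
    ring
  rw [hcard]
  have h3 : 1 / (1 - (2 * (Fintype.card α : ℝ) - 3) * y) * (1 - (2 * (Fintype.card α : ℝ) - 3) * y)
      = 1 := one_div_mul_cancel hpos.ne'
  generalize 1 / (1 - (2 * (Fintype.card α : ℝ) - 3) * y) = r at h3 ⊢
  nlinarith [h3]

end

theorem tADMW : S_ADMW := by
  intro α _ _ i M z z' hcard hz hzz' hz'1 hlt hLE
  have hz' : 0 < z' := hz.trans hzz'
  choose x hx1 hx2 using key (ENNReal.ofReal z) i M
  have hinj : Function.Injective x := by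
    intro s s' hs
    apply Subtype.ext
    rw [← hx1 s, ← hx1 s', hs]
  have hW : WQ (ENNReal.ofReal z) (ADMS i M) ≤ ∑' y : IT i M, wi (ENNReal.ofReal z) y := by
    unfold WQ
    rw [tsum_congr hx2]
    exact ENNReal.tsum_comp_le_tsum_of_injective hinj (fun y => wi (ENNReal.ofReal z) y)
  refine lt_of_le_of_lt hW ?_
  have hsq : (ENNReal.ofReal z) ^ 2 = ENNReal.ofReal (z ^ 2) := (ENNReal.ofReal_pow hz.le 2).symm
  have hZr : W (ENNReal.ofReal (z' ^ 2)) (Zr (Zi i)) < ⊤ := W_Zr2 i (by positivity) hcard hlt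
  have hzsq : z ^ 2 < z' ^ 2 := pow_lt_pow_left₀ hzz' hz.le (by norm_num)
  have hP := sigma_lt_top (Zr (Zi i)) (z := z ^ 2) (z' := z' ^ 2) (by positivity) hzsq hZr
  have hT := sigma_lt_top (Pool.Agent.Helper86.AP.LE M) hz hzz' hLE
  have hC : ∑' c : Zr (Zi i), ENNReal.ofReal (z ^ 2) ^ (c : List (α × Bool)).length < ⊤ := by
    refine lt_of_le_of_lt (ENNReal.tsum_le_tsum fun c => ?_) hZr
    exact pow_le_pow_left' (ENNReal.ofReal_le_ofReal hzsq.le) _
  have hG : ∑' n : ℕ, ENNReal.ofReal z ^ n < ⊤ := by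
    rw [ENNReal.tsum_geometric]
    apply ENNReal.inv_lt_top.2
    rw [tsub_pos_iff_lt]
    rw [← ENNReal.ofReal_one]
    exact (ENNReal.ofReal_lt_ofReal_iff one_pos).2 (hzz'.trans hz'1)
  have hprod : ∑' y : IT i M, wi (ENNReal.ofReal z) y =
      (∑' u : (Σ u : Zr (Zi i), Fin ((u : List (α × Bool)).length + 1)),
        ENNReal.ofReal (z ^ 2) ^ (u.1 : List (α × Bool)).length) *
      ((∑' u : (Σ u : Zr (Zi i), Fin ((u : List (α × Bool)).length + 1)),
        ENNReal.ofReal (z ^ 2) ^ (u.1 : List (α × Bool)).length) *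
      ((∑' u : (Σ u : Pool.Agent.Helper86.AP.LE M, Fin ((u : List (α × Bool)).length + 1)),
        ENNReal.ofReal z ^ (u.1 : List (α × Bool)).length) *
      ((∑' u : (Σ u : Pool.Agent.Helper86.AP.LE M, Fin ((u : List (α × Bool)).length + 1)),
        ENNReal.ofReal z ^ (u.1 : List (α × Bool)).length) *
      ((∑' c : Zr (Zi i), ENNReal.ofReal (z ^ 2) ^ (c : List (α × Bool)).length) *
      ((∑' n : ℕ, ENNReal.ofReal z ^ n) * ((∑' n : ℕ, ENNReal.ofReal z ^ n) *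
      ((∑' n : ℕ, ENNReal.ofReal z ^ n) * ∑' n : ℕ, ENNReal.ofReal z ^ n))))))) := by
    unfold wi
    rw [hsq]
    rw [← tp (fun n : ℕ => ENNReal.ofReal z ^ n) (fun n : ℕ => ENNReal.ofReal z ^ n), ← tp, ← tp,
      ← tp, ← tp, ← tp, ← tp, ← tp]
  rw [hprod]
  exact ENNReal.mul_lt_top hP (ENNReal.mul_lt_top hP (ENNReal.mul_lt_top hT
    (ENNReal.mul_lt_top hT (ENNReal.mul_lt_top hC (ENNReal.mul_lt_top hG
    (ENNReal.mul_lt_top hG (ENNReal.mul_lt_top hG hG)))))))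

end Pool.Agent.Helper95.AP
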